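import Pool.Agent.Lib.MP_22c5db_an.H4.Loc

/-! A bounded Hochschild 2-cocycle of a von Neumann algebra with values in `B(H)` is a coboundary
on every set of vectors whose finite subsets lie in subspaces generated by `k` vectors. -/

namespace Pool.Agent.Results.MP_22c5db_an.Local

open Pool.Agent.Kad Pool.Agent.Kad.H2

theorem result {H : Type*} [NormedAddCommGroup H] [InnerProductSpace ℂ H] [CompleteSpace H]
    (M : VonNeumannAlgebra H) (K : Set H) (k : ℕ)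
    (hK : ∀ F : Finset H, (F : Set H) ⊆ K → ∃ S : Finset H, S.card ≤ k ∧
      (F : Set H) ⊆ closure (Submodule.span ℂ {η : H | ∃ x ∈ M, ∃ ξ ∈ S, η = x ξ} : Set H))
    (φ : M.toStarSubalgebra →L[ℂ] M.toStarSubalgebra →L[ℂ] (H →L[ℂ] H))
    (hφ : ∀ a b c : M.toStarSubalgebra,
      (a : H →L[ℂ] H) * φ b c - φ (a * b) c + φ a (b * c) - φ a b * (c : H →L[ℂ] H) = 0) :
    ∃ ψ : M.toStarSubalgebra →L[ℂ] (H →L[ℂ] H), ‖ψ‖ ≤ 10 ^ 14 * k * ‖φ‖ ∧
      ∀ a b : M.toStarSubalgebra, ∀ ζ ∈ K,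
        φ a b ζ = ((a : H →L[ℂ] H) * ψ b - ψ (a * b) + ψ a * (b : H →L[ℂ] H)) ζ := by
  obtain ⟨P, hP⟩ : ∃ P : (H →L[ℂ] H) →ₗ[ℂ] M.toStarSubalgebra,
      ∀ a : M.toStarSubalgebra, P a = a := by
    obtain ⟨P, hP⟩ := LinearMap.exists_leftInverse_of_injective
      M.toStarSubalgebra.toSubalgebra.val.toLinearMap
      (LinearMap.ker_eq_bot.2 Subtype.val_injective)
    exact ⟨P, fun a => LinearMap.congr_fun hP a⟩
  have hP' : ∀ x (hx : x ∈ M), P x = ⟨x, hx⟩ := fun x hx => hP ⟨x, hx⟩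
  have hPm : ∀ x ∈ M, ∀ y ∈ M, P (x * y) = P x * P y := fun x hx y hy => by
    rw [hP' x hx, hP' y hy, hP' _ (mul_mem hx hy)]
    rfl
  let φ' : Bil H := LinearMap.mk₂ ℂ (fun x y => φ (P x) (P y))
    (fun x x' y => by simp only [map_add, add_apply])
    (fun c x y => by simp only [map_smul, smul_apply])
    (fun x y y' => by simp only [map_add]) (fun c x y => by simp only [map_smul])
  have hφ' : ∀ x y, φ' x y = φ (P x) (P y) := fun _ _ => rfl
  have hC : CC M φ' := fun x hx y hy z hz => by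
    have h1 := hφ (P x) (P y) (P z)
    rw [hφ', hφ', hφ', hφ', hPm x hx y hy, hPm y hy z hz]
    have e1 : (P x : H →L[ℂ] H) = x := by rw [hP' x hx]
    have e2 : (P z : H →L[ℂ] H) = z := by rw [hP' z hz]
    rw [e1, e2] at h1
    rw [← sub_eq_zero, ← neg_eq_zero, ← h1]
    abel
  have hB : Bd2 M φ' ‖φ‖ := fun x hx y hy => by
    rw [hφ', hP' x hx, hP' y hy]
    exact φ.le_opNorm₂ _ _
  obtain ⟨ψ, h1, h2⟩ := H4.main hC hB φ.opNorm_nonneg K k hK
  have h0 : (0 : ℝ) ≤ 10 ^ 14 * k * ‖φ‖ :=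
    mul_nonneg (mul_nonneg (by norm_num) (Nat.cast_nonneg k)) φ.opNorm_nonneg
  refine ⟨(ψ.comp M.toStarSubalgebra.toSubalgebra.val.toLinearMap).mkContinuous _
    fun a => h1 a a.2, LinearMap.mkContinuous_norm_le _ h0 _, fun a b ζ hζ => ?_⟩
  have h3 := h2 a a.2 b b.2 ζ hζ
  rw [hφ', hP, hP] at h3
  exact h3

end Pool.Agent.Results.MP_22c5db_an.Local
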